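import Pool.Agent.N329.ZM.Fin

/-!
# MP_3d0d30_nt: only the orders `k ≤ (1 + ε) √(log T / log log T)` matter

`M_k(T) = ∫_0^T |ζ(1/2 + it)|^{2k} dt`; the pair `(k, T)` is good if `M_k(T) ≤ T (log T)^{k²}`, the
inequality of Q2.

(A) For every `T ≥ 1000`: if `(j, T)` is good, `k ≥ j` and
`2 log T + 2 j log 2 + log 288 ≤ j k log log T`, then `(k, T)` is good. Hence all orders `k ≥ 2` are
good for `T` if and only if those with `k² log log T ≤ 2 log T + 2 k log 2 + log 288` are.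
(B) Let `κ(T) = √(log T / log log T)`. For every `ε > 0` and all large `T`: if the single order
`j = (1 + ε) κ(T)` is good for `T` and for `2 T`, then all orders `k ≥ j` are good for `T`, and
`|ζ(1/2 + it)| ≤ exp ((1 + ε) √(log T log log T))` for `0 ≤ t ≤ T`.
(C) So Q2 for all `T ≥ X` is equivalent to Q2 for all `T ≥ X` and `2 ≤ k ≤ (1 + ε) κ(T)`, for every
`X ≥ T₀(ε)`.

Proof. A value `V` of `|ζ(1/2 + it)|` forces values `≥ V / 2` on an interval whose length is the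
inverse of a bound `D` for the derivative, so that `(V / 2)^{2j} ≤ 2 D M_j(T)`; if `(j, T)` is good
this bounds `V`, and `M_k(T) ≤ V^{2(k - j)} M_j(T)`. In (A) `D = 144 T` (Cauchy's estimate). In (B)
the good order `j` at `2 T` first gives `|ζ(1/2 + iu)| ≤ T^{o(1)}` for `u ≤ 2 T`, then the maximum
principle in the rectangles `1/4 ≤ Re s ≤ 1/2` and `1/2 ≤ Re s ≤ 3/4`, `|Im s - t| ≤ log T`, for
`ζ(s) exp ((s - s₀)² ∓ 4 (s - 1/2) log T)`, and Cauchy's estimate, give `D = T^{o(1)}`.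
-/

set_option autoImplicit false

namespace Pool.Agent.Results.MP_3d0d30_nt.CriticalOrder

open Complex

/-- `M_k(T) = ∫_0^T |ζ(1/2 + it)|^{2k} dt` -/
noncomputable def M (k T : ℝ) : ℝ := ∫ t in (0:ℝ)..T, ‖riemannZeta (1 / 2 + t * I)‖ ^ (2 * k)

/-- the inequality of Q2 for the pair `(k, T)` -/
def Good (k T : ℝ) : Prop := M k T ≤ T * Real.log T ^ (k ^ 2)

/-- `κ(T) = √(log T / log log T)` -/
noncomputable def kappa (T : ℝ) : ℝ := Real.sqrt (Real.log T / Real.log (Real.log T))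

theorem result :
    -- (A) explicit form, for each `T`
    (∀ T : ℝ, 1000 ≤ T →
      (∀ j k : ℝ, 0 < j → j ≤ k →
        2 * Real.log T + 2 * j * Real.log 2 + Real.log 288 ≤ j * k * Real.log (Real.log T) →
        Good j T → Good k T) ∧
      ((∀ k : ℝ, 2 ≤ k → Good k T) ↔
        ∀ k : ℝ, 2 ≤ k →
          k ^ 2 * Real.log (Real.log T) ≤ 2 * Real.log T + 2 * k * Real.log 2 + Real.log 288 →
          Good k T)) ∧
    -- (B) asymptotic form: one order gives all higher orders and the maximum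
    (∀ ε : ℝ, 0 < ε → ∃ T₀ : ℝ, ∀ T : ℝ, T₀ ≤ T →
      Good ((1 + ε) * kappa T) T → Good ((1 + ε) * kappa T) (2 * T) →
      (∀ t : ℝ, 0 ≤ t → t ≤ T → ‖riemannZeta (1 / 2 + t * I)‖ ≤
        Real.exp ((1 + ε) * Real.sqrt (Real.log T * Real.log (Real.log T)))) ∧
      ∀ k : ℝ, (1 + ε) * kappa T ≤ k → Good k T) ∧
    -- (C) the orders that matter
    (∀ ε : ℝ, 0 < ε → ∃ T₀ : ℝ, ∀ X : ℝ, T₀ ≤ X →
      ((∀ T : ℝ, X ≤ T → ∀ k : ℝ, 2 ≤ k → Good k T) ↔
        ∀ T : ℝ, X ≤ T → ∀ k : ℝ, 2 ≤ k → k ≤ (1 + ε) * kappa T → Good k T)) := by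
  refine ⟨fun T hT => ⟨fun j k hj hjk h hg => ?_, fun h k hk _ => h k hk, fun h k hk => ?_⟩,
    fun ε hε => ?_, fun ε hε => ?_⟩
  · exact Pool.Agent.N329.ZM.prop1 T j k hT hj hjk h hg
  · exact Pool.Agent.N329.ZM.orders T hT h k hk
  · obtain ⟨T₀, _, h⟩ := Pool.Agent.N329.ZM.main1 ε hε
    exact ⟨T₀, h⟩
  · obtain ⟨T₀, _, h⟩ := Pool.Agent.N329.ZM.main2 ε hε
    exact ⟨T₀, fun X hX => ⟨fun h1 T hT k hk _ => h1 T hT k hk, h X hX⟩⟩

end Pool.Agent.Results.MP_3d0d30_nt.CriticalOrder
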