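import Pool.Agent.N329.ZM.Fin

/-!
# MP_3d0d30_nt: Q2 in the range `T ≤ k^{Ak}` and the Lindelöf exponent

`M_k(T) = ∫_0^T |ζ(1/2 + it)|^{2k} dt`. Let `θ ≥ 0` and `c > 0`. Then `ζ(1/2 + it) = O(t^η)` for all
`η > θ` if and only if for every `A > 0` with `2 θ A < c` the inequality
`M_k(T) ≤ T (log T)^{c k²}` holds for all large real `k` and all `1000 ≤ T ≤ k^{Ak}`.

For `c = 1` this is the inequality of Q2: so the supremum of the `A` for which Q2 is true for all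
large `k` in the range `T ≤ k^{Ak}` is exactly `1 / (2 μ)`, with the Lindelöf exponent
`μ = μ(1/2)`; Q2 in all these ranges (`θ = 0`) is equivalent to the Lindelöf hypothesis, and if the
Lindelöf hypothesis is false then Q2 fails for arbitrarily large orders `k`, with `T ≤ k^{Ak}` for
every `A > 1 / (2 μ)`.

Proof. If `|ζ| ≤ C T^η` on `[0, T]` then `M_k(T) ≤ T (C T^η)^{2k}`, and `log T ≤ A k log k` implies
`log T ≤ A k log log T` for large `k`. Conversely a value `V` at `t` forces values `≥ V / 2` on an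
interval of length `1 / (288 t)`, so `(V / 2)^{2k} ≤ 288 t M_k(2t)`, and one takes
`k = b log (2t) / log log (2t)` with a suitable `b > 1 / A`.
-/

set_option autoImplicit false

namespace Pool.Agent.Results.MP_3d0d30_nt.LindelofRange

open Complex

/-- `M_k(T) = ∫_0^T |ζ(1/2 + it)|^{2k} dt` -/
noncomputable def M (k T : ℝ) : ℝ := ∫ t in (0:ℝ)..T, ‖riemannZeta (1 / 2 + t * I)‖ ^ (2 * k)

theorem result (θ c : ℝ) (hθ : 0 ≤ θ) (hc : 0 < c) :
    (∀ η : ℝ, θ < η → ∃ C : ℝ, ∀ t : ℝ, 1 ≤ t → ‖riemannZeta (1 / 2 + t * I)‖ ≤ C * t ^ η) ↔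
      ∀ A : ℝ, 0 < A → 2 * θ * A < c →
        ∃ k₀ : ℝ, ∀ k : ℝ, k₀ ≤ k → ∀ T : ℝ, 1000 ≤ T → T ≤ k ^ (A * k) →
          M k T ≤ T * Real.log T ^ (c * k ^ 2) :=
  Pool.Agent.N329.ZM.main3 θ c hθ hc

end Pool.Agent.Results.MP_3d0d30_nt.LindelofRange
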