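import Pool.Agent.N799.LG.Fin2
import Pool.Agent.N799.LG.Fin3
import Pool.Agent.N799.LG.L_FE
import Pool.Agent.N799.LG.L_KER
import Pool.Agent.N799.LG.L_PB
import Pool.Agent.N799.LG.L_CEN
import Pool.Agent.N799.LG.L_MAJ
import Pool.Agent.N799.LG.L_UP
import Pool.Agent.N799.LG.L_PT
import Pool.Agent.N799.LG.L_M1
import Pool.Agent.N799.LG.L_TP
import Pool.Agent.N799.LG.L_M2

/-!
# MP_3d0d30_nt: moments of zeta and moments of its local geometric means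

`exp (G(a, t))` is the geometric mean of `|ζ(1/2 + iu)|` near the height `t` at the scale `a`
(Poisson kernel of width `a`). For every real `k > 0` the moments of order `2k` of `ζ` and of its
local geometric means at the scale `c / log T` have the same order of magnitude; all constants are
uniform in the scale, with a loss `T^{O(ka)}`.
-/

set_option autoImplicit false

namespace Pool.Agent.Results.MP_3d0d30_nt.LocalGeometricMeans

open MeasureTheory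

/-- `M_k(T) = ∫_0^T |ζ(1/2 + it)|^{2k} dt` -/
noncomputable def M (k T : ℝ) : ℝ :=
  ∫ t in (0 : ℝ)..T, ‖riemannZeta (1 / 2 + t * Complex.I)‖ ^ (2 * k)

/-- `G(a, t)`, the Poisson mean at scale `a` of `log |ζ(1/2 + iu)|` around the height `t` -/
noncomputable def G (a t : ℝ) : ℝ :=
  a / Real.pi * ∫ u : ℝ,
    Real.log ‖riemannZeta (1 / 2 + u * Complex.I)‖ / (a ^ 2 + (u - t) ^ 2)

/-- `N_k(a, T) = ∫_0^T exp (2k G(a, t)) dt` -/
noncomputable def N (k a T : ℝ) : ℝ := ∫ t in (0 : ℝ)..T, Real.exp (2 * k * G a t)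

/-- moments of zeta and of its local geometric means -/
theorem result :
    -- (1) the pointwise inequality
    (∃ C : ℝ, 0 < C ∧ ∀ a : ℝ, 0 < a → a ≤ 1 / 4 → ∀ t : ℝ,
      Integrable (fun u : ℝ =>
        Real.log ‖riemannZeta (1 / 2 + u * Complex.I)‖ / (a ^ 2 + (u - t) ^ 2)) ∧
      Integrable (fun u : ℝ =>
        max (G a (t + u)) 0 / (2 * a * Real.cosh (Real.pi * u / (2 * a)))) ∧
      ‖riemannZeta (1 / 2 + t * Complex.I)‖ ≤ C * (2 + |t|) ^ (a / 2) *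
        Real.exp (∫ u : ℝ, max (G a (t + u)) 0 / (2 * a * Real.cosh (Real.pi * u / (2 * a))))) ∧
    -- (2) the moments, uniformly in the scale
    (∃ A : ℝ, 0 < A ∧ ∀ k : ℝ, 0 < k → ∃ C : ℝ, 0 < C ∧ ∀ a T : ℝ,
      0 < a → a ≤ 1 / 4 → 1 ≤ T →
      M k T ≤ C * T ^ (k * a) * (T + N k a (2 * T)) ∧
      N k a T ≤ C * T ^ (A * k * a) * (T + M k (2 * T))) ∧
    -- (3) the scale `c / log T` and an arbitrary comparison function
    (∀ (k c D : ℝ) (F : ℝ → ℝ), 0 < k → 0 < c → 0 < D →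
      (∀ T : ℝ, 2 ≤ T → T ≤ D * F T ∧ F (2 * T) ≤ D * F T) →
      ((∃ C : ℝ, ∀ T : ℝ, 2 ≤ T → M k T ≤ C * F T) ↔
        ∃ C T₀ : ℝ, ∀ T : ℝ, T₀ ≤ T → N k (c / Real.log T) T ≤ C * F T)) ∧
    -- (4) the comparison functions `T (log T)^β`
    (∀ k c β : ℝ, 0 < k → 0 < c → 0 ≤ β →
      ((∃ C : ℝ, ∀ T : ℝ, 2 ≤ T → M k T ≤ C * (T * Real.log T ^ β)) ↔
        ∃ C T₀ : ℝ, ∀ T : ℝ, T₀ ≤ T →
          N k (c / Real.log T) T ≤ C * (T * Real.log T ^ β))) ∧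
    -- (5) small fixed scales and powers of `T`
    (∀ k m : ℝ, 0 < k → 1 ≤ m →
      ((∀ ε : ℝ, 0 < ε → ∃ C : ℝ, ∀ T : ℝ, 1 ≤ T → M k T ≤ C * T ^ (m + ε)) ↔
        ∀ ε : ℝ, 0 < ε → ∃ a₀ : ℝ, 0 < a₀ ∧ ∀ a : ℝ, 0 < a → a ≤ a₀ →
          ∃ C : ℝ, ∀ T : ℝ, 1 ≤ T → N k a T ≤ C * T ^ (m + ε))) ∧
    -- (6) the supremum norm
    (∃ A C : ℝ, 0 < A ∧ 0 < C ∧ ∀ a T B : ℝ, 0 < a → a ≤ 1 / 4 → 1 ≤ T → 1 ≤ B →
      ((∀ t : ℝ, |t| ≤ 2 * T → Real.exp (G a t) ≤ B) →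
        ∀ t : ℝ, |t| ≤ T → ‖riemannZeta (1 / 2 + t * Complex.I)‖ ≤ C * T ^ (a / 2) * B) ∧
      ((∀ t : ℝ, |t| ≤ 2 * T → ‖riemannZeta (1 / 2 + t * Complex.I)‖ ≤ B) →
        ∀ t : ℝ, |t| ≤ T → Real.exp (G a t) ≤ C * T ^ (A * a) * B)) := by
  have hUP := Pool.Agent.N799.LG.t_UP Pool.Agent.N799.LG.t_PB
  have hCEN := Pool.Agent.N799.LG.t_CEN Pool.Agent.N799.LG.t_FE Pool.Agent.N799.LG.t_KER
  have hPT := Pool.Agent.N799.LG.t_PT hCEN Pool.Agent.N799.LG.t_MAJ hUP Pool.Agent.N799.LG.t_KER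
  have hM1 := Pool.Agent.N799.LG.t_M1 hPT hUP Pool.Agent.N799.LG.t_KER
  have hTP := Pool.Agent.N799.LG.t_TP Pool.Agent.N799.LG.t_PB Pool.Agent.N799.LG.t_MAJ
  have hM2 := Pool.Agent.N799.LG.t_M2 hTP hUP Pool.Agent.N799.LG.t_PB
  have h2 := Pool.Agent.N799.LG.two hM1 hM2
  refine ⟨?_, h2, fun k c D F hk hc hD hF => Pool.Agent.N799.LG.scale h2 k c D F hk hc hD hF,
    fun k c β hk hc hβ => Pool.Agent.N799.LG.scale_log h2 k c β hk hc hβ,
    fun k m hk hm => Pool.Agent.N799.LG.weak h2 k m hk hm,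
    Pool.Agent.N799.LG.sup hPT hTP hUP Pool.Agent.N799.LG.t_KER⟩
  obtain ⟨C, hC, hPT⟩ := hPT
  obtain ⟨C', -, hMAJ⟩ := Pool.Agent.N799.LG.t_MAJ
  refine ⟨Real.exp C, Real.exp_pos C, fun a ha ha4 t => ?_⟩
  obtain ⟨h3, h4⟩ := hPT a ha ha4 t
  have e : (fun u : ℝ => max (G a (t + u)) 0 / (2 * a * Real.cosh (Real.pi * u / (2 * a)))) =
      fun u : ℝ => max (Pool.Agent.N799.LG.GG a (t + u)) 0 * Pool.Agent.N799.LG.KK a u := by
    funext u
    have : G a (t + u) = Pool.Agent.N799.LG.GG a (t + u) := Pool.Agent.N799.LG.G_eq a (t + u)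
    rw [this, Pool.Agent.N799.LG.KK, mul_one_div]
  rw [e]
  refine ⟨?_, h3, ?_⟩
  · have := (hMAJ a ha ha4 t).1
    simp_rw [Pool.Agent.N799.LG.L0] at this
    exact this
  · rw [Pool.Agent.N799.LG.L0] at h4
    have ht : 0 < 2 + |t| := by positivity
    by_cases hz : ‖riemannZeta (1 / 2 + t * Complex.I)‖ = 0
    · rw [hz]; positivity
    have hzp : 0 < ‖riemannZeta (1 / 2 + t * Complex.I)‖ :=
      lt_of_le_of_ne (norm_nonneg _) (Ne.symm hz)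
    calc ‖riemannZeta (1 / 2 + t * Complex.I)‖
        = Real.exp (Real.log ‖riemannZeta (1 / 2 + t * Complex.I)‖) := (Real.exp_log hzp).symm
      _ ≤ _ := Real.exp_le_exp.mpr h4
      _ = _ := by
        rw [Real.exp_add, Real.exp_add, Real.rpow_def_of_pos ht, mul_comm (Real.log (2 + |t|))]

end Pool.Agent.Results.MP_3d0d30_nt.LocalGeometricMeans
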